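import Mathlib
import Pool.Agent.Y418.TQ.TFin

/-!
# Cubic toroidal graphs: how many edges must be deleted to make them `k`-planar

For all `s` and all `k ≥ 1` there is a toroidal graph of maximum degree at most `3` with
`O (k ^ 8 (s + k log k) ^ 2)` vertices such that, whichever `s` edges are deleted, in EVERY drawing
of the rest in the plane some edge crosses more than `k` other edges. For fixed `k` this is
`O ((s + 1) ^ 2)` vertices, so a positive multiple of the square root of the number of vertices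
has to be deleted.
-/

set_option autoImplicit false

namespace Pool.Agent.Results.MP_d609bd_co.SharpDeletions

open Pool.Agent.Helper448.TDefs Pool.Agent.Y418.TQ

/-- The edges of `G` other than `e` whose curves meet the curve of `e` in an interior point of
both curves. Edges meeting `e` in several points (or in infinitely many) are counted once. -/
abbrev crossing {X : Type} [TopologicalSpace X] {V : Type} {G : SimpleGraph V} (D : Drawing X G)
    (e : Sym2 V) : Set (Sym2 V) :=
  {f | f ∈ G.edgeSet ∧ f ≠ e ∧ (D.crossings e f).Nonempty}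

/-- In every drawing of `G` in the plane some edge crosses more than `k` other edges. -/
def Tangled (k : ℕ) {V : Type} (G : SimpleGraph V) : Prop :=
  ∀ D : Drawing Plane G, ∃ e ∈ G.edgeSet, (k : ℕ∞) < (crossing D e).encard

/-- Counting crossings with multiplicity gives at least the number of crossing edges. -/
theorem crossing_le {V : Type} {G : SimpleGraph V} (D : Drawing Plane G) (e : Sym2 V) :
    (crossing D e).encard ≤ {q : Sym2 V × Plane | q.1 ∈ G.edgeSet ∧ q.1 ≠ e ∧
      q.2 ∈ D.crossings e q.1}.encard := by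
  have hsub : crossing D e ⊆ Prod.fst '' {q : Sym2 V × Plane | q.1 ∈ G.edgeSet ∧ q.1 ≠ e ∧
      q.2 ∈ D.crossings e q.1} := by
    rintro f ⟨h1, h2, x, hx⟩
    exact ⟨(f, x), ⟨h1, h2, hx⟩, rfl⟩
  exact (Set.encard_le_encard hsub).trans (Set.encard_image_le _ _)

theorem not_kplanar_of_tangled {V : Type} {G : SimpleGraph V} {k K : ℕ} (hkK : k ≤ K)
    (h : Tangled K G) : ¬ KPlanar k G := by
  rintro ⟨D, _, hD⟩
  obtain ⟨e, he, hlt⟩ := h D
  have h1 : (crossing D e).encard ≤ (K : ℕ∞) :=
    ((crossing_le D e).trans (hD e he)).trans (by exact_mod_cast hkK)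
  exact absurd hlt (not_lt.2 h1)

/-- **Main theorem.** (1) There is `C` such that for all `s` and all `k ≥ 1` there is a toroidal
graph `G` of maximum degree at most `3` with at most `C k ^ 8 (s + k (1 + ⌊log₂ k⌋)) ^ 2` vertices
such that after deleting any set of at most `s` edges, in every drawing of the remaining graph in
the plane some edge crosses more than `k` other edges; in particular the remaining graph is not
`k`-planar. (2) For every fixed `k` there is `c` such that for every `s` such a graph exists with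
at most `c (s + 1) ^ 2` vertices. (3) The set of degrees asked for in Q1 is empty. -/
theorem result :
    (∃ C : ℕ, ∀ s k : ℕ, 0 < k → ∃ (V : Type) (_ : Finite V) (G : SimpleGraph V),
      Nat.card V ≤ C * (k ^ 8 * (s + k * (Nat.log 2 k + 1)) ^ 2) ∧ Toroidal G ∧
      (∀ v, (G.neighborSet v).encard ≤ 3) ∧
      ∀ F : Set (Sym2 V), F.encard ≤ s →
        Tangled k (G.deleteEdges F) ∧ ¬ KPlanar k (G.deleteEdges F)) ∧
    (∀ k : ℕ, ∃ c : ℕ, ∀ s : ℕ, ∃ (V : Type) (_ : Finite V) (G : SimpleGraph V),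
      Nat.card V ≤ c * (s + 1) ^ 2 ∧ Toroidal G ∧
      (∀ v, (G.neighborSet v).encard ≤ 3) ∧
      ∀ F : Set (Sym2 V), F.encard ≤ s →
        Tangled k (G.deleteEdges F) ∧ ¬ KPlanar k (G.deleteEdges F)) ∧
    {d : ℕ | 3 ≤ d ∧ ∃ k : ℕ, P d k} = ∅ := by
  have main : ∀ s k : ℕ, 0 < k → ∃ (V : Type) (_ : Finite V) (G : SimpleGraph V),
      Nat.card V ≤ 2 ^ 196 * (k ^ 8 * (s + k * (Nat.log 2 k + 1)) ^ 2) ∧ Toroidal G ∧
      (∀ v, (G.neighborSet v).encard ≤ 3) ∧
      ∀ F : Set (Sym2 V), F.encard ≤ s → Tangled k (G.deleteEdges F) := fun s k hk =>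
    TFin.explicit s k hk
  refine ⟨⟨2 ^ 196, fun s k hk => ?_⟩, fun k => ?_, ?_⟩
  · obtain ⟨V, hV, G, h1, h2, h3, h4⟩ := main s k hk
    exact ⟨V, hV, G, h1, h2, h3, fun F hF => ⟨h4 F hF, not_kplanar_of_tangled le_rfl (h4 F hF)⟩⟩
  · refine ⟨2 ^ 196 * ((k + 1) ^ 8 * ((k + 1) * (Nat.log 2 (k + 1) + 1)) ^ 2), fun s => ?_⟩
    obtain ⟨V, hV, G, h1, h2, h3, h4⟩ := main s (k + 1) (Nat.succ_pos k)
    refine ⟨V, hV, G, ?_, h2, h3, fun F hF => ⟨fun D => ?_,
      not_kplanar_of_tangled (Nat.le_succ k) (h4 F hF)⟩⟩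
    · refine h1.trans ?_
      set q := (k + 1) * (Nat.log 2 (k + 1) + 1) with hq
      have hq1 : 1 ≤ q := Nat.mul_pos (Nat.succ_pos k) (Nat.succ_pos _)
      have h5 : s + q ≤ q * (s + 1) := by nlinarith
      calc 2 ^ 196 * ((k + 1) ^ 8 * (s + q) ^ 2)
          ≤ 2 ^ 196 * ((k + 1) ^ 8 * (q * (s + 1)) ^ 2) :=
            Nat.mul_le_mul_left _ (Nat.mul_le_mul_left _ (Nat.pow_le_pow_left h5 2))
        _ = 2 ^ 196 * ((k + 1) ^ 8 * q ^ 2) * (s + 1) ^ 2 := by ring
    · obtain ⟨e, he, hlt⟩ := h4 F hF D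
      exact ⟨e, he, lt_of_le_of_lt (by exact_mod_cast Nat.le_succ k) hlt⟩
  · rw [Set.eq_empty_iff_forall_notMem]
    rintro d ⟨hd, k, hP⟩
    obtain ⟨V, hV, G, _, hT, hdeg, hno⟩ := main (k + 1) (k + 1) (Nat.succ_pos k)
    obtain ⟨F, _, hF, hK⟩ := hP V G hT fun v => (hdeg v).trans (by exact_mod_cast hd)
    refine not_kplanar_of_tangled (Nat.le_succ k) (hno F (hF.trans ?_)) hK
    exact_mod_cast Nat.le_succ k

end Pool.Agent.Results.MP_d609bd_co.SharpDeletions
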